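import Pool.Agent.U309.ZF.Stm
import Pool.Agent.TH941.Newform

/-!
# Project ZF, package RS: Rankin–Selberg at the edge (derivative form)
-/

set_option autoImplicit false

open Filter Topology UpperHalfPlane MatrixGroups CongruenceSubgroup

namespace Pool.Agent.U263.ZF.RS

open Pool.Agent.U309.ZF (IsFormOf coef lam W S_RS)
open Pool.Agent.TH941 (gg gg_nonneg rs_form Hecke psum ct Mult)
open Pool.Agent.W165.RS (ac)

variable {a b : ℤ} {N : ℕ} [NeZero N] {f : CuspForm (Gamma0 N : Subgroup (GL (Fin 2) ℝ)) 2} {w : ℝ}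

lemma hecke_of (h : IsFormOf a b N f w) : Hecke f where
  one := h.one
  real := h.real
  mul := h.mul
  pow := h.pow
  good := h.good
  bad := by
    intro p hp hN
    rcases h.bad p hp hN with h0 | h0 | h0
    · change ‖coef f p‖ ≤ 1
      rw [h0]; simp
    · change ‖coef f p‖ ≤ 1
      rw [h0]; simp
    · change ‖coef f p‖ ≤ 1
      rw [h0]; simp

lemma gg_eq_lam (h : IsFormOf a b N f w) (p : ℕ) : gg f p = lam f p ^ 2 := by
  unfold gg lam
  have h1 : ac f p = (((coef f p).re : ℝ) : ℂ) := by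
    apply Complex.ext
    · simp [ac, coef]
    · have := h.real p
      simpa [ac, coef] using this
  rw [h1, Complex.norm_real, Real.norm_eq_abs, sq_abs, div_pow, Real.sq_sqrt (Nat.cast_nonneg p)]

open Classical in
lemma psum_eq (g : ℕ → ℝ) (s : ℝ) :
    psum g s = ∑' p : Nat.Primes, g p * ((p : ℕ) : ℝ) ^ (-s) := by
  unfold psum
  have h1 := tsum_subtype {p : ℕ | p.Prime} (fun p : ℕ => g p * (p : ℝ) ^ (-s))
  have h2 : (∑' p : ℕ, if p.Prime then g p * (p : ℝ) ^ (-s) else 0) =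
      ∑' p : ℕ, Set.indicator {p : ℕ | p.Prime} (fun p : ℕ => g p * (p : ℝ) ^ (-s)) p := by
    refine tsum_congr fun p => ?_
    rw [Set.indicator_apply]
    rfl
  rw [h2, ← h1]
  rfl

lemma summable_primes {g : ℕ → ℝ} (hg : Mult g) {s : ℝ} (hs : 1 < s) :
    Summable fun p : Nat.Primes => g p * ((p : ℕ) : ℝ) ^ (-s) := by
  refine Summable.of_nonneg_of_le (fun p => mul_nonneg (hg.nonneg _) (by positivity)) (fun p => ?_)
    ((Nat.Primes.summable_rpow.2 (by linarith : -s < -1)).mul_left 4)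
  exact mul_le_mul_of_nonneg_right (hg.g_le p.2) (by positivity)

/-- the convexity inequality -/
lemma conv {g : ℕ → ℝ} (hg : Mult g) {δ h : ℝ} (hh : 0 < h) (hd : h < δ) :
    h * W g δ 0 ≤ psum g (1 + (δ - h)) - psum g (1 + δ) := by
  have s1 := summable_primes hg (show 1 < 1 + (δ - h) by linarith)
  have s2 := summable_primes hg (show 1 < 1 + δ by linarith)
  have hterm : ∀ p : Nat.Primes, h * (g p * Real.cos (0 * Real.log ((p : ℕ) : ℝ)) *
      (Real.log ((p : ℕ) : ℝ) * ((p : ℕ) : ℝ) ^ (-(1 + δ)))) ≤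
      g p * ((p : ℕ) : ℝ) ^ (-(1 + (δ - h))) - g p * ((p : ℕ) : ℝ) ^ (-(1 + δ)) := by
    intro p
    have hp0 : (0 : ℝ) < (p : ℕ) := by exact_mod_cast p.2.pos
    have hg0 := hg.nonneg (p : ℕ)
    have e1 : ((p : ℕ) : ℝ) ^ (-(1 + (δ - h))) = ((p : ℕ) : ℝ) ^ (-(1 + δ)) * ((p : ℕ) : ℝ) ^ h := by
      rw [← Real.rpow_add hp0]
      congr 1
      ring
    have e2 : 1 + h * Real.log ((p : ℕ) : ℝ) ≤ ((p : ℕ) : ℝ) ^ h := by
      rw [Real.rpow_def_of_pos hp0]
      have := Real.add_one_le_exp (Real.log ((p : ℕ) : ℝ) * h)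
      linarith
    have e3 : 0 ≤ g p * ((p : ℕ) : ℝ) ^ (-(1 + δ)) := mul_nonneg hg0 (by positivity)
    rw [zero_mul, Real.cos_zero, mul_one, e1]
    nlinarith
  have hnn : ∀ p : Nat.Primes, 0 ≤ g p * Real.cos (0 * Real.log ((p : ℕ) : ℝ)) *
      (Real.log ((p : ℕ) : ℝ) * ((p : ℕ) : ℝ) ^ (-(1 + δ))) := by
    intro p
    have hp1 : (1 : ℝ) ≤ (p : ℕ) := by exact_mod_cast p.2.one_le
    have := Real.log_nonneg hp1
    have := hg.nonneg (p : ℕ)
    rw [zero_mul, Real.cos_zero, mul_one]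
    positivity
  have s3 : Summable fun p : Nat.Primes => h * (g p * Real.cos (0 * Real.log ((p : ℕ) : ℝ)) *
      (Real.log ((p : ℕ) : ℝ) * ((p : ℕ) : ℝ) ^ (-(1 + δ)))) :=
    Summable.of_nonneg_of_le (fun p => mul_nonneg hh.le (hnn p)) hterm (s1.sub s2)
  rw [psum_eq, psum_eq, ← s1.tsum_sub s2]
  unfold W
  rw [← tsum_mul_left]
  exact s3.tsum_le_tsum hterm (s1.sub s2)

lemma shift1 : Tendsto (fun ε : ℝ => 1 + ε) (𝓝[>] 0) (𝓝[>] 1) := by
  rw [tendsto_nhdsWithin_iff]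
  constructor
  · have : Continuous fun w : ℝ => 1 + w := by fun_prop
    have := this.tendsto 0
    rw [add_zero] at this
    exact this.mono_left nhdsWithin_le_nhds
  · filter_upwards [self_mem_nhdsWithin] with w hw
    have hw0 : (0 : ℝ) < w := hw
    show (1 : ℝ) < 1 + w
    linarith

/-- the limit of `φ(ε) + log ε` -/
lemma phi_lim (hf : Hecke f) :
    ∃ C : ℝ, Tendsto (fun ε : ℝ => psum (gg f) (1 + ε) + Real.log ε) (𝓝[>] 0) (𝓝 C) := by
  obtain ⟨hsum, c, hc, hlim⟩ := rs_form f hf.one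
  refine ⟨Real.log c - ∑' p : ℕ, ct (gg f) 1 p, ?_⟩
  have h2 := ((hlim.log hc.ne').sub hf.mult.ct_tendsto).comp shift1
  refine h2.congr' ?_
  filter_upwards [self_mem_nhdsWithin] with ε hε
  have hε0 : (0 : ℝ) < ε := hε
  have hs1 : (1 : ℝ) < 1 + ε := by linarith
  have pos : 0 < ∑' n : ℕ, gg f n * (n : ℝ) ^ (-(1 + ε)) := by
    have : gg f 1 * ((1 : ℕ) : ℝ) ^ (-(1 + ε)) ≤ ∑' n : ℕ, gg f n * (n : ℝ) ^ (-(1 + ε)) :=
      (hsum _ hs1).le_tsum 1 fun n _ => mul_nonneg (hf.mult.nonneg _) (by positivity)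
    rw [hf.mult.one, Nat.cast_one, Real.one_rpow, mul_one] at this
    linarith
  simp only [Function.comp_apply]
  rw [add_sub_cancel_left, Real.log_mul hε0.ne' pos.ne', hf.mult.log_series hs1 (hsum _ hs1)]
  ring

theorem t_RS : S_RS := by
  intro a b N _ f w _ hform ε hε
  have hf := hecke_of hform
  obtain ⟨C, hC⟩ := phi_lim hf
  obtain ⟨θ, hθ⟩ : ∃ θ : ℝ, θ = ε / (2 + ε) := ⟨_, rfl⟩
  have hθ0 : 0 < θ := by rw [hθ]; positivity
  have hθ1 : 1 - θ = 2 / (2 + ε) := by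
    rw [hθ]
    field_simp
    ring
  have hθ2 : 0 < 1 - θ := by rw [hθ1]; positivity
  have hθ3 : θ * (1 + ε / 2) = ε / 2 := by
    rw [hθ]
    field_simp
  have hlog : -Real.log (1 - θ) ≤ ε / 2 := by
    rw [hθ1, ← Real.log_inv, inv_div]
    have := Real.log_le_sub_one_of_pos (show 0 < (2 + ε) / 2 by positivity)
    linarith
  have hsc : Tendsto (fun δ : ℝ => (1 - θ) * δ) (𝓝[>] 0) (𝓝[>] 0) := by
    rw [tendsto_nhdsWithin_iff]
    constructor
    · have : Continuous fun w : ℝ => (1 - θ) * w := by fun_prop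
      have := this.tendsto 0
      rw [mul_zero] at this
      exact this.mono_left nhdsWithin_le_nhds
    · filter_upwards [self_mem_nhdsWithin] with w hw
      have hw0 : (0 : ℝ) < w := hw
      show (0 : ℝ) < (1 - θ) * w
      positivity
  have hdiff := (hC.comp hsc).sub hC
  rw [sub_self] at hdiff
  have hev := hdiff.eventually (gt_mem_nhds (show (0 : ℝ) < θ * ε / 2 by positivity))
  obtain ⟨δ₀, hδ₀, hδ⟩ := (nhdsGT_basis (0 : ℝ)).eventually_iff.1 hev
  refine ⟨δ₀, hδ₀, fun δ h0 h1 => ?_⟩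
  have h2 := hδ (show δ ∈ Set.Ioo 0 δ₀ from ⟨h0, h1⟩)
  simp only [Function.comp_apply] at h2
  have h3 := conv hf.mult (show 0 < θ * δ by positivity) (show θ * δ < δ by nlinarith)
  rw [show δ - θ * δ = (1 - θ) * δ by ring] at h3
  rw [Real.log_mul hθ2.ne' h0.ne'] at h2
  have e : (fun p => lam f p ^ 2) = gg f := by
    funext p
    exact (gg_eq_lam hform p).symm
  rw [e, le_div_iff₀ h0]
  have h4 : θ * (W (gg f) δ 0 * δ) ≤ θ * (1 + ε) := by
    calc θ * (W (gg f) δ 0 * δ) = θ * δ * W (gg f) δ 0 := by ring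
      _ ≤ psum (gg f) (1 + (1 - θ) * δ) - psum (gg f) (1 + δ) := h3
      _ ≤ θ * ε / 2 + ε / 2 := by linarith
      _ = θ * (1 + ε) := by rw [← hθ3]; ring
  exact le_of_mul_le_mul_left h4 hθ0

end Pool.Agent.U263.ZF.RS
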